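import Pool.Agent.NHP.Grp
import Pool.Agent.NHP.Cps
import Pool.Agent.KNT.PrfL

/-!
# NHL/Knk: a crossing change of the line along a trivial chord gives the line (helper62)
-/

open scoped Manifold ContDiff Topology
open Set Filter
open Pool.Agent.CSG (stp)
open Pool.Agent.KNT (bmp)
open Pool.Agent.NHP

namespace Pool.Agent.NHL

/-- the box -/
def BB : Set E := {q | ‖q.1‖ < 8 ∧ |q.2| < 8}

/-- the line in the box -/
def BL : Set E := {q | q ∈ BB ∧ q.1 = 0}

/-! ## a push along a family of curves -/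

theorem knk_imm {k : ℝ → E} {t d : ℝ} (h : DifferentiableAt ℝ k t) (L : E →L[ℝ] ℝ)
    (hL : HasDerivAt (fun t => L (k t)) d t) (hd : d ≠ 0) {v : ℝ} (hv : fderiv ℝ k t v = 0) : v = 0 := by
  have h1 : HasFDerivAt (fun t => L (k t)) (L.comp (fderiv ℝ k t)) t :=
    L.hasFDerivAt.comp t h.hasFDerivAt
  have h2 := h1.unique hL.hasFDerivAt
  have h3 := congrArg (fun A : ℝ →L[ℝ] ℝ => A v) h2
  simp only [ContinuousLinearMap.comp_apply, hv, map_zero] at h3
  have h4 : v * d = 0 := by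
    rw [h3]; simp
  rcases mul_eq_zero.1 h4 with h5 | h5
  · exact h5
  · exact absurd h5 hd

theorem knk_push {k : ℝ → ℝ → E} (hk : ContDiff ℝ ∞ fun q : ℝ × ℝ => k q.1 q.2)
    (hout : ∀ s ∈ Icc (0 : ℝ) 1, ∀ t, 2 ≤ |t| → k s t = (0, t))
    (hin : ∀ s ∈ Icc (0 : ℝ) 1, ∀ t, |t| ≤ 2 → ‖(k s t).1‖ < 8 ∧ |(k s t).2| ≤ |t|)
    (himm : ∀ s ∈ Icc (0 : ℝ) 1, ∀ t v, fderiv ℝ (k s) t v = 0 → v = 0)
    (hinj : ∀ s ∈ Icc (0 : ℝ) 1, ∀ t, |t| ≤ 2 → ∀ t', |t'| ≤ 2 → k s t = k s t' → t = t') :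
    ∃ V : ℝ → Equiv.Perm E, PushE BB V ∧ ∀ t, V 1 (k 0 t) = k 1 t := by
  have h01 : (0 : ℝ) ∈ Icc (0 : ℝ) 1 := by simp
  have h11 : (1 : ℝ) ∈ Icc (0 : ℝ) 1 := by simp
  let O : Set E := {q | ‖q.1‖ < 8 ∧ |q.2| < 5 / 2}
  have hO : IsOpen O := by
    have h1 : IsOpen {q : E | ‖q.1‖ < 8} := isOpen_lt (by fun_prop) (by fun_prop)
    have h2 : IsOpen {q : E | |q.2| < 5 / 2} := isOpen_lt (by fun_prop) (by fun_prop)
    exact h1.inter h2
  have hinj' : ∀ s ∈ Icc (0 : ℝ) 1, ∀ t t' : ℝ, k s t = k s t' → t = t' := by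
    intro s hs t t' he
    rcases le_or_gt |t| 2 with h1 | h1 <;> rcases le_or_gt |t'| 2 with h2 | h2
    · exact hinj s hs t h1 t' h2 he
    · exfalso
      rw [hout s hs t' h2.le] at he
      have := (hin s hs t h1).2
      rw [he] at this
      simp only at this
      linarith
    · exfalso
      rw [hout s hs t h1.le] at he
      have := (hin s hs t' h2).2
      rw [← he] at this
      simp only at this
      linarith
    · rw [hout s hs t h1.le, hout s hs t' h2.le] at he
      exact congrArg Prod.snd he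
  obtain ⟨V, hV, hV1⟩ := core_push (O := O) hO (k := k) (U := univ) (J := Icc (-3) 3) (J₁ := Icc (-2) 2) isOpen_univ
    isCompact_Icc (subset_univ _) isCompact_Icc (Icc_subset_Icc (by norm_num) (by norm_num))
    (fun s _ y _ => hk.contDiffAt)
    (by
      intro s hs y _ hy
      have h2 : 2 ≤ |y| := by
        by_contra hc
        have hc := not_le.1 hc
        exact hy ⟨by linarith [(abs_lt.1 hc).1], by linarith [(abs_lt.1 hc).2]⟩
      rw [hout s hs y h2, hout 0 h01 y h2])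
    (by
      intro s hs y hy
      have h2 : |y| ≤ 2 := abs_le.2 ⟨hy.1, hy.2⟩
      have h3 := hin s hs y h2
      exact ⟨h3.1, by linarith [h3.2]⟩)
    (fun s hs y _ v hv => himm s hs y v hv)
    (fun s hs y _ y' _ he => hinj' s hs y y' he)
  refine ⟨V, hV.mono ?_, ?_⟩
  · rintro q ⟨h1, h2⟩
    exact ⟨h1, by linarith⟩
  · intro t
    by_cases ht : t ∈ Icc (-3 : ℝ) 3
    · exact hV1 t ht
    · have h3 : 3 ≤ |t| := by
        by_contra hc
        have hc := not_le.1 hc
        exact ht ⟨by linarith [(abs_lt.1 hc).1], by linarith [(abs_lt.1 hc).2]⟩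
      rw [hout 0 h01 t (by linarith), hout 1 h11 t (by linarith)]
      apply hV.out
      rintro ⟨-, h4⟩
      simp only at h4
      linarith

/-! ## the kink curve -/

noncomputable def kf (t : ℝ) : ℝ := 1 - stp (6 / 5) (19 / 10) (t ^ 2)
noncomputable def kr (t : ℝ) : ℝ := 1 - stp 2 3 (t ^ 2)
/-- first coordinate -/
noncomputable def kx (t : ℝ) : ℝ := t * ((t ^ 2 - 1) * kf t + (1 - kf t))
noncomputable def ky (t : ℝ) : ℝ := (2 - t ^ 2) * kr t
noncomputable def kz (t : ℝ) : ℝ := t * kr t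
/-- third coordinate with the finger -/
noncomputable def kw (t : ℝ) : ℝ := kz t + (9 / 4 - 9 / 8 * (t + 1)) * bmp (32 * (t + 1))

theorem kf_smooth : ContDiff ℝ ∞ kf := contDiff_const.sub ((CSG.stp_smooth _ _).comp (contDiff_id.pow 2))
theorem kr_smooth : ContDiff ℝ ∞ kr := contDiff_const.sub ((CSG.stp_smooth _ _).comp (contDiff_id.pow 2))
theorem kx_smooth : ContDiff ℝ ∞ kx :=
  contDiff_id.mul ((((contDiff_id.pow 2).sub contDiff_const).mul kf_smooth).add (contDiff_const.sub kf_smooth))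
theorem ky_smooth : ContDiff ℝ ∞ ky := (contDiff_const.sub (contDiff_id.pow 2)).mul kr_smooth
theorem kz_smooth : ContDiff ℝ ∞ kz := contDiff_id.mul kr_smooth
theorem kw_smooth : ContDiff ℝ ∞ kw :=
  kz_smooth.add ((contDiff_const.sub (contDiff_const.mul (contDiff_id.add contDiff_const))).mul
    (KNT.bmp_smooth.comp (contDiff_const.mul (contDiff_id.add contDiff_const))))

theorem kf_one {t : ℝ} (h : t ^ 2 ≤ 6 / 5) : kf t = 1 := by
  unfold kf; rw [CSG.stp_zero (by norm_num) h]; ring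
theorem kf_zero {t : ℝ} (h : 19 / 10 ≤ t ^ 2) : kf t = 0 := by
  unfold kf; rw [CSG.stp_one (by norm_num) h]; ring
theorem kf_nonneg (t : ℝ) : 0 ≤ kf t := sub_nonneg.2 (CSG.stp_le_one _ _ _)
theorem kf_le (t : ℝ) : kf t ≤ 1 := by
  have := CSG.stp_nonneg (6 / 5) (19 / 10) (t ^ 2)
  unfold kf; linarith
theorem kr_one {t : ℝ} (h : t ^ 2 ≤ 2) : kr t = 1 := by
  unfold kr; rw [CSG.stp_zero (by norm_num) h]; ring
theorem kr_zero {t : ℝ} (h : 3 ≤ t ^ 2) : kr t = 0 := by
  unfold kr; rw [CSG.stp_one (by norm_num) h]; ring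
theorem kr_nonneg (t : ℝ) : 0 ≤ kr t := sub_nonneg.2 (CSG.stp_le_one _ _ _)
theorem kr_le (t : ℝ) : kr t ≤ 1 := by
  have := CSG.stp_nonneg 2 3 (t ^ 2)
  unfold kr; linarith

theorem kx_in {t : ℝ} (h : t ^ 2 ≤ 6 / 5) : kx t = t ^ 3 - t := by
  unfold kx; rw [kf_one h]; ring
theorem kx_out {t : ℝ} (h : 19 / 10 ≤ t ^ 2) : kx t = t := by
  unfold kx; rw [kf_zero h]; ring
theorem ky_in {t : ℝ} (h : t ^ 2 ≤ 2) : ky t = 2 - t ^ 2 := by
  unfold ky; rw [kr_one h]; ring
theorem kz_in {t : ℝ} (h : t ^ 2 ≤ 2) : kz t = t := by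
  unfold kz; rw [kr_one h]; ring
theorem ky_out {t : ℝ} (h : 3 ≤ t ^ 2) : ky t = 0 := by
  unfold ky; rw [kr_zero h]; ring
theorem kz_out {t : ℝ} (h : 3 ≤ t ^ 2) : kz t = 0 := by
  unfold kz; rw [kr_zero h]; ring

theorem kx_neg (t : ℝ) : kx (-t) = -kx t := by
  unfold kx kf; rw [neg_sq]; ring

theorem kb_abs (t : ℝ) : |(t ^ 2 - 1) * kf t + (1 - kf t)| ≤ 1 := by
  have h0 := kf_nonneg t
  have h1 := kf_le t
  rcases le_or_gt (t ^ 2) (19 / 10) with h | h
  · have h2 := sq_nonneg t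
    rw [abs_le]
    constructor <;> nlinarith
  · rw [kf_zero h.le]; norm_num

theorem kx_abs (t : ℝ) : |kx t| ≤ |t| := by
  unfold kx
  rw [abs_mul]
  calc |t| * |(t ^ 2 - 1) * kf t + (1 - kf t)| ≤ |t| * 1 :=
        mul_le_mul_of_nonneg_left (kb_abs t) (abs_nonneg _)
    _ = |t| := mul_one _

theorem kx_eq_zero {t : ℝ} (h : kx t = 0) (h0 : t ≠ 0) : t ^ 2 = 1 := by
  unfold kx at h
  rcases mul_eq_zero.1 h with h1 | h1
  · exact absurd h1 h0
  · rcases le_or_gt (t ^ 2) (6 / 5) with h2 | h2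
    · rw [kf_one h2] at h1; linarith
    · exfalso
      have h3 := kf_nonneg t
      have h4 : kf t < 1 := by
        unfold kf
        have := CSG.stp_pos (a := 6 / 5) (b := 19 / 10) (by norm_num) h2
        linarith
      nlinarith

theorem sq_ge_of_abs {t : ℝ} (h : 2 ≤ |t|) : 3 ≤ t ^ 2 := by
  rw [← sq_abs]; nlinarith

theorem kbmp_zero {t : ℝ} (h : 1 / 256 ≤ |t + 1|) : bmp (32 * (t + 1)) = 0 := by
  apply KNT.bmp_zero
  rw [abs_mul, abs_of_pos (by norm_num : (0 : ℝ) < 32)]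
  linarith

theorem kw_out {t : ℝ} (h : 1 / 256 ≤ |t + 1|) : kw t = kz t := by
  unfold kw; rw [kbmp_zero h]; ring

theorem mk_smooth {F : Type*} [NormedAddCommGroup F] [NormedSpace ℝ F] {f g : F → ℝ} (hf : ContDiff ℝ ∞ f)
    (hg : ContDiff ℝ ∞ g) : ContDiff ℝ ∞ fun x => (⟨f x, g x⟩ : ℂ) :=
  Complex.equivRealProdCLM.symm.contDiff.comp (hf.prodMk hg)

theorem norm_mk_le (a b : ℝ) : ‖(⟨a, b⟩ : ℂ)‖ ≤ |a| + |b| := by
  have := Complex.norm_le_abs_re_add_abs_im (⟨a, b⟩ : ℂ)
  simpa using this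

/-- the curve with third coordinate `g` -/
noncomputable def kc (g : ℝ → ℝ) (t : ℝ) : E := (⟨ky t, g t⟩, kx t)

/-- interpolation from the line -/
noncomputable def ka (σ s t : ℝ) : E := (⟨s * ky t, s * (σ * kz t)⟩, (1 - s) * t + s * kx t)

theorem ka_smooth (σ : ℝ) : ContDiff ℝ ∞ fun q : ℝ × ℝ => ka σ q.1 q.2 := by
  unfold ka
  refine (mk_smooth (contDiff_fst.mul (ky_smooth.comp contDiff_snd))
    (contDiff_fst.mul (contDiff_const.mul (kz_smooth.comp contDiff_snd)))).prodMk ?_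
  exact ((contDiff_const.sub contDiff_fst).mul contDiff_snd).add (contDiff_fst.mul (kx_smooth.comp contDiff_snd))

theorem ka_diff (σ s t : ℝ) : DifferentiableAt ℝ (ka σ s) t := by
  have h : ContDiff ℝ ∞ (ka σ s) := (ka_smooth σ).comp (contDiff_const.prodMk contDiff_id)
  exact h.differentiable (by simp) t

theorem line_push {σ : ℝ} (hσ : σ ≠ 0) (hσ1 : |σ| ≤ 1) :
    ∃ V : ℝ → Equiv.Perm E, PushE BB V ∧ ∀ t : ℝ, V 1 (0, t) = kc (fun t => σ * kz t) t := by
  have key : ∃ V : ℝ → Equiv.Perm E, PushE BB V ∧ ∀ t, V 1 (ka σ 0 t) = ka σ 1 t := by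
    refine knk_push (k := ka σ) (ka_smooth σ) ?_ ?_ ?_ ?_
    · intro s _ t ht
      have h3 := sq_ge_of_abs ht
      unfold ka
      rw [ky_out h3, kz_out h3, kx_out (by linarith), Prod.mk.injEq]
      exact ⟨Complex.ext (by simp) (by simp), by ring⟩
    · intro s hs t ht
      have ht2 : t ^ 2 ≤ 4 := by rw [← sq_abs]; nlinarith [abs_nonneg t]
      have h0 := kr_nonneg t
      have h1 := kr_le t
      constructor
      · refine lt_of_le_of_lt (norm_mk_le _ _) ?_
        have e1 : |s * ky t| ≤ 2 := by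
          rw [abs_mul, abs_of_nonneg hs.1]
          have : |ky t| ≤ 2 := by
            unfold ky
            rw [abs_mul, abs_of_nonneg h0]
            have : |2 - t ^ 2| ≤ 2 := abs_le.2 ⟨by linarith, by nlinarith⟩
            calc |2 - t ^ 2| * kr t ≤ 2 * 1 := mul_le_mul this h1 h0 (by norm_num)
              _ = 2 := by norm_num
          calc s * |ky t| ≤ 1 * 2 := mul_le_mul hs.2 this (abs_nonneg _) (by norm_num)
            _ = 2 := by norm_num
        have e2 : |s * (σ * kz t)| ≤ 2 := by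
          rw [abs_mul, abs_mul, abs_of_nonneg hs.1]
          have : |kz t| ≤ 2 := by
            unfold kz
            rw [abs_mul, abs_of_nonneg h0]
            calc |t| * kr t ≤ 2 * 1 := mul_le_mul ht h1 h0 (by norm_num)
              _ = 2 := by norm_num
          have h5 : |σ| * |kz t| ≤ 1 * 2 := mul_le_mul hσ1 this (abs_nonneg _) (by norm_num)
          calc s * (|σ| * |kz t|) ≤ 1 * (1 * 2) :=
                mul_le_mul hs.2 h5 (mul_nonneg (abs_nonneg _) (abs_nonneg _)) (by norm_num)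
            _ = 2 := by norm_num
        linarith
      · show |(1 - s) * t + s * kx t| ≤ |t|
        calc |(1 - s) * t + s * kx t| ≤ |(1 - s) * t| + |s * kx t| := abs_add_le _ _
          _ = (1 - s) * |t| + s * |kx t| := by
              rw [abs_mul, abs_mul, abs_of_nonneg (by linarith [hs.2] : 0 ≤ 1 - s), abs_of_nonneg hs.1]
          _ ≤ (1 - s) * |t| + s * |t| := by
              have := mul_le_mul_of_nonneg_left (kx_abs t) hs.1
              linarith
          _ = |t| := by ring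
    · intro s hs t v hv
      rcases eq_or_ne s 0 with rfl | hs0
      · refine knk_imm (ka_diff σ 0 t) (ContinuousLinearMap.snd ℝ ℂ ℝ) (d := 1) ?_ one_ne_zero hv
        have : (fun t => (ContinuousLinearMap.snd ℝ ℂ ℝ) (ka σ 0 t)) = fun t => t := by
          funext t; simp [ka]
        rw [this]
        exact hasDerivAt_id' t
      · rcases lt_or_ge (t ^ 2) 2 with h | h
        · refine knk_imm (ka_diff σ s t) (Complex.imCLM.comp (ContinuousLinearMap.fst ℝ ℂ ℝ)) (d := s * σ) ?_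
            (mul_ne_zero hs0 hσ) hv
          have h1 : (fun t => (Complex.imCLM.comp (ContinuousLinearMap.fst ℝ ℂ ℝ)) (ka σ s t)) =ᶠ[𝓝 t]
              fun t => s * σ * t := by
            have : ∀ᶠ t' in 𝓝 t, t' ^ 2 < 2 := (continuousAt_id.pow 2).eventually (gt_mem_nhds h)
            filter_upwards [this] with t' ht'
            simp only [ContinuousLinearMap.comp_apply, ContinuousLinearMap.coe_fst', Complex.imCLM_apply, ka]
            rw [kz_in ht'.le]; ring
          refine HasDerivAt.congr_of_eventuallyEq ?_ h1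
          simpa using (hasDerivAt_id' t).const_mul (s * σ)
        · refine knk_imm (ka_diff σ s t) (ContinuousLinearMap.snd ℝ ℂ ℝ) (d := 1) ?_ one_ne_zero hv
          have h1 : (fun t => (ContinuousLinearMap.snd ℝ ℂ ℝ) (ka σ s t)) =ᶠ[𝓝 t] fun t => t := by
            have : ∀ᶠ t' in 𝓝 t, 19 / 10 < t' ^ 2 :=
              (continuousAt_id.pow 2).eventually (lt_mem_nhds (show 19 / 10 < t ^ 2 by linarith))
            filter_upwards [this] with t' ht'
            simp only [ContinuousLinearMap.coe_snd', ka]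
            rw [kx_out ht'.le]; ring
          exact (hasDerivAt_id' t).congr_of_eventuallyEq h1
    · intro s hs t ht t' ht' he
      have hx : (1 - s) * t + s * kx t = (1 - s) * t' + s * kx t' := congrArg Prod.snd he
      have hz : s * (σ * kz t) = s * (σ * kz t') := congrArg (fun q : E => q.1.im) he
      have hb : ∀ u : ℝ, |(1 - s) * u + s * kx u| ≤ |u| := by
        intro u
        calc |(1 - s) * u + s * kx u| ≤ |(1 - s) * u| + |s * kx u| := abs_add_le _ _
          _ = (1 - s) * |u| + s * |kx u| := by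
              rw [abs_mul, abs_mul, abs_of_nonneg (by linarith [hs.2] : 0 ≤ 1 - s), abs_of_nonneg hs.1]
          _ ≤ (1 - s) * |u| + s * |u| := by
              have := mul_le_mul_of_nonneg_left (kx_abs u) hs.1
              linarith
          _ = |u| := by ring
      have hout : ∀ u : ℝ, 2 < u ^ 2 → (1 - s) * u + s * kx u = u := by
        intro u hu
        rw [kx_out (by linarith)]; ring
      have habs : ∀ u : ℝ, |u| ^ 2 = u ^ 2 := fun u => sq_abs u
      rcases eq_or_ne s 0 with rfl | hs0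
      · simpa using hx
      · rcases le_or_gt (t ^ 2) 2 with h1 | h1 <;> rcases le_or_gt (t' ^ 2) 2 with h2 | h2
        · rw [kz_in h1, kz_in h2] at hz
          exact mul_left_cancel₀ hσ (mul_left_cancel₀ hs0 hz)
        · exfalso
          rw [hout t' h2] at hx
          have h3 := hb t
          rw [hx] at h3
          have h4 : |t'| ^ 2 ≤ |t| ^ 2 := pow_le_pow_left₀ (abs_nonneg _) h3 2
          rw [habs, habs] at h4
          linarith
        · exfalso
          rw [hout t h1] at hx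
          have h3 := hb t'
          rw [← hx] at h3
          have h4 : |t| ^ 2 ≤ |t'| ^ 2 := pow_le_pow_left₀ (abs_nonneg _) h3 2
          rw [habs, habs] at h4
          linarith
        · rw [hout t h1, hout t' h2] at hx
          exact hx
  obtain ⟨V, h1, h2⟩ := key
  refine ⟨V, h1, ?_⟩
  intro t
  have e0 : ka σ 0 t = ((0 : ℂ), t) := by
    unfold ka
    rw [Prod.mk.injEq]
    exact ⟨Complex.ext (by simp) (by simp), by ring⟩
  have e1 : ka σ 1 t = kc (fun t => σ * kz t) t := by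
    unfold ka kc
    rw [Prod.mk.injEq]
    exact ⟨Complex.ext (by simp) (by simp), by ring⟩
  rw [← e0, h2, e1]

/-- interpolation from the curve with the finger to the mirror image of the kink curve -/
noncomputable def kb (s t : ℝ) : E := (⟨ky t, (1 - s) * kw t + s * (-1 * kz t)⟩, kx t)

theorem kb_smooth : ContDiff ℝ ∞ fun q : ℝ × ℝ => kb q.1 q.2 := by
  unfold kb
  refine (mk_smooth (ky_smooth.comp contDiff_snd) ?_).prodMk (kx_smooth.comp contDiff_snd)
  exact ((contDiff_const.sub contDiff_fst).mul (kw_smooth.comp contDiff_snd)).add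
    (contDiff_fst.mul (contDiff_const.mul (kz_smooth.comp contDiff_snd)))

theorem kb_diff (s t : ℝ) : DifferentiableAt ℝ (kb s) t := by
  have h : ContDiff ℝ ∞ (kb s) := kb_smooth.comp (contDiff_const.prodMk contDiff_id)
  exact h.differentiable (by simp) t

theorem kz_abs {t : ℝ} (ht : |t| ≤ 2) : |kz t| ≤ 2 := by
  have h0 := kr_nonneg t
  have h1 := kr_le t
  unfold kz
  rw [abs_mul, abs_of_nonneg h0]
  calc |t| * kr t ≤ 2 * 1 := mul_le_mul ht h1 h0 (by norm_num)
    _ = 2 := by norm_num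

theorem ky_abs {t : ℝ} (ht : |t| ≤ 2) : |ky t| ≤ 2 := by
  have ht2 : t ^ 2 ≤ 4 := by rw [← sq_abs]; nlinarith [abs_nonneg t]
  have h0 := kr_nonneg t
  have h1 := kr_le t
  unfold ky
  rw [abs_mul, abs_of_nonneg h0]
  have : |2 - t ^ 2| ≤ 2 := abs_le.2 ⟨by linarith, by nlinarith⟩
  calc |2 - t ^ 2| * kr t ≤ 2 * 1 := mul_le_mul this h1 h0 (by norm_num)
    _ = 2 := by norm_num

theorem kw_abs {t : ℝ} (ht : |t| ≤ 2) : |kw t| ≤ 5 := by
  have h2 := kz_abs ht
  rcases le_or_gt (1 / 256) |t + 1| with h | h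
  · rw [kw_out h]; linarith
  · unfold kw
    have h0 := KNT.bmp_nonneg (32 * (t + 1))
    have h1 := KNT.bmp_le_one (32 * (t + 1))
    have h3 := abs_lt.1 h
    have h4 : |9 / 4 - 9 / 8 * (t + 1)| ≤ 3 := abs_le.2 ⟨by linarith, by linarith⟩
    have h5 : |(9 / 4 - 9 / 8 * (t + 1)) * bmp (32 * (t + 1))| ≤ 3 := by
      rw [abs_mul, abs_of_nonneg h0]
      calc |9 / 4 - 9 / 8 * (t + 1)| * bmp (32 * (t + 1)) ≤ 3 * 1 := mul_le_mul h4 h1 h0 (by norm_num)
        _ = 3 := by norm_num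
    calc |kz t + (9 / 4 - 9 / 8 * (t + 1)) * bmp (32 * (t + 1))| ≤ |kz t| + _ := abs_add_le _ _
      _ ≤ 5 := by linarith

theorem fing_push : ∃ V : ℝ → Equiv.Perm E, PushE BB V ∧ ∀ t : ℝ, V 1 (kc kw t) = kc (fun t => -1 * kz t) t := by
  have key : ∃ V : ℝ → Equiv.Perm E, PushE BB V ∧ ∀ t, V 1 (kb 0 t) = kb 1 t := by
    refine knk_push (k := kb) kb_smooth ?_ ?_ ?_ ?_
    · intro s _ t ht
      have h3 := sq_ge_of_abs ht
      have h4 : 1 / 256 ≤ |t + 1| := by
        have := abs_sub_abs_le_abs_sub t (-1)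
        rw [abs_neg, abs_one, sub_neg_eq_add] at this
        linarith
      unfold kb
      rw [kw_out h4, ky_out h3, kz_out h3, kx_out (by linarith), Prod.mk.injEq]
      exact ⟨Complex.ext (by simp) (by simp), rfl⟩
    · intro s hs t ht
      refine ⟨?_, kx_abs t⟩
      refine lt_of_le_of_lt (norm_mk_le _ _) ?_
      have h1 := ky_abs ht
      have h2 : |(1 - s) * kw t + s * (-1 * kz t)| ≤ 5 := by
        calc |(1 - s) * kw t + s * (-1 * kz t)| ≤ |(1 - s) * kw t| + |s * (-1 * kz t)| := abs_add_le _ _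
          _ = (1 - s) * |kw t| + s * |kz t| := by
              rw [abs_mul, abs_mul, abs_mul, abs_of_nonneg (by linarith [hs.2] : 0 ≤ 1 - s), abs_of_nonneg hs.1]
              norm_num
          _ ≤ (1 - s) * 5 + s * 5 := by
              have e1 := mul_le_mul_of_nonneg_left (kw_abs ht) (by linarith [hs.2] : 0 ≤ 1 - s)
              have e2 := mul_le_mul_of_nonneg_left (kz_abs ht) hs.1
              nlinarith [hs.1]
          _ = 5 := by ring
      linarith
    · intro s hs t v hv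
      rcases lt_or_ge (t ^ 2) 2 with h | h
      · rcases eq_or_ne t 0 with rfl | ht0
        · refine knk_imm (kb_diff s 0) (ContinuousLinearMap.snd ℝ ℂ ℝ) (d := -1) ?_ (by norm_num) hv
          have h1 : (fun t => (ContinuousLinearMap.snd ℝ ℂ ℝ) (kb s t)) =ᶠ[𝓝 0] fun t => t ^ 3 - t := by
            have : ∀ᶠ t' : ℝ in 𝓝 0, t' ^ 2 < 6 / 5 :=
              (continuousAt_id.pow 2).eventually (gt_mem_nhds (by norm_num))
            filter_upwards [this] with t' ht'
            simp only [ContinuousLinearMap.coe_snd', kb]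
            exact kx_in ht'.le
          refine HasDerivAt.congr_of_eventuallyEq ?_ h1
          exact ((hasDerivAt_pow 3 (0 : ℝ)).fun_sub (hasDerivAt_id' (0 : ℝ))).congr_deriv (by norm_num)
        · refine knk_imm (kb_diff s t) (Complex.reCLM.comp (ContinuousLinearMap.fst ℝ ℂ ℝ)) (d := -(2 * t)) ?_
            (neg_ne_zero.2 (mul_ne_zero two_ne_zero ht0)) hv
          have h1 : (fun t => (Complex.reCLM.comp (ContinuousLinearMap.fst ℝ ℂ ℝ)) (kb s t)) =ᶠ[𝓝 t]
              fun t => 2 - t ^ 2 := by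
            have : ∀ᶠ t' in 𝓝 t, t' ^ 2 < 2 := (continuousAt_id.pow 2).eventually (gt_mem_nhds h)
            filter_upwards [this] with t' ht'
            simp only [ContinuousLinearMap.comp_apply, ContinuousLinearMap.coe_fst', Complex.reCLM_apply, kb]
            exact ky_in ht'.le
          refine HasDerivAt.congr_of_eventuallyEq ?_ h1
          exact ((hasDerivAt_const t (2 : ℝ)).fun_sub (hasDerivAt_pow 2 t)).congr_deriv (by norm_num)
      · refine knk_imm (kb_diff s t) (ContinuousLinearMap.snd ℝ ℂ ℝ) (d := 1) ?_ one_ne_zero hv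
        have h1 : (fun t => (ContinuousLinearMap.snd ℝ ℂ ℝ) (kb s t)) =ᶠ[𝓝 t] fun t => t := by
          have : ∀ᶠ t' in 𝓝 t, 19 / 10 < t' ^ 2 :=
            (continuousAt_id.pow 2).eventually (lt_mem_nhds (show 19 / 10 < t ^ 2 by linarith))
          filter_upwards [this] with t' ht'
          simp only [ContinuousLinearMap.coe_snd', kb]
          exact kx_out ht'.le
        exact (hasDerivAt_id' t).congr_of_eventuallyEq h1
    · intro s hs t ht t' ht' he
      have hx : kx t = kx t' := congrArg Prod.snd he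
      have hy : ky t = ky t' := congrArg (fun q : E => q.1.re) he
      have hz : (1 - s) * kw t + s * (-1 * kz t) = (1 - s) * kw t' + s * (-1 * kz t') :=
        congrArg (fun q : E => q.1.im) he
      have habs : ∀ u : ℝ, |u| ^ 2 = u ^ 2 := fun u => sq_abs u
      have hne : (1 - s) * kw (-1) + s * (-1 * kz (-1)) ≠ (1 - s) * kw 1 + s * (-1 * kz 1) := by
        have e1 : kw (-1) = 5 / 4 := by
          unfold kw
          rw [kz_in (by norm_num), KNT.bmp_one (by norm_num)]; norm_num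
        have e2 : kw 1 = 1 := by
          rw [kw_out (by norm_num), kz_in (by norm_num)]
        rw [e1, e2, kz_in (by norm_num), kz_in (by norm_num)]
        intro h
        linarith [hs.1, hs.2]
      rcases le_or_gt (t ^ 2) 2 with h1 | h1 <;> rcases le_or_gt (t' ^ 2) 2 with h2 | h2
      · rw [ky_in h1, ky_in h2] at hy
        have h3 : t ^ 2 = t' ^ 2 := by linarith
        rcases sq_eq_sq_iff_eq_or_eq_neg.1 h3 with h4 | h4
        · exact h4
        · by_contra hc
          have h5 : t' ≠ 0 := by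
            rintro rfl
            exact hc (by rw [h4]; simp)
          rw [h4, kx_neg] at hx
          have h6 : kx t' = 0 := by linarith
          have h7 := kx_eq_zero h6 h5
          have h9 : t' = 1 ∨ t' = -1 := by
            have : (t' - 1) * (t' + 1) = 0 := by ring_nf; linarith
            rcases mul_eq_zero.1 this with h | h
            · left; linarith
            · right; linarith
          rcases h9 with h8 | h8
          · rw [h4, h8] at hz
            exact hne hz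
          · rw [h4, h8, neg_neg] at hz
            exact hne hz.symm
      · exfalso
        rw [kx_out (by linarith : 19 / 10 ≤ t' ^ 2)] at hx
        have h3 := kx_abs t
        rw [hx] at h3
        have h4 : |t'| ^ 2 ≤ |t| ^ 2 := pow_le_pow_left₀ (abs_nonneg _) h3 2
        rw [habs, habs] at h4
        linarith
      · exfalso
        rw [kx_out (by linarith : 19 / 10 ≤ t ^ 2)] at hx
        have h3 := kx_abs t'
        rw [← hx] at h3
        have h4 : |t| ^ 2 ≤ |t'| ^ 2 := pow_le_pow_left₀ (abs_nonneg _) h3 2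
        rw [habs, habs] at h4
        linarith
      · rw [kx_out (by linarith : 19 / 10 ≤ t ^ 2), kx_out (by linarith : 19 / 10 ≤ t' ^ 2)] at hx
        exact hx
  obtain ⟨V, h1, h2⟩ := key
  refine ⟨V, h1, ?_⟩
  intro t
  have e0 : kb 0 t = kc kw t := by
    unfold kb kc
    rw [Prod.mk.injEq]
    exact ⟨Complex.ext (by simp) (by simp), rfl⟩
  have e1 : kb 1 t = kc (fun t => -1 * kz t) t := by
    unfold kb kc
    rw [Prod.mk.injEq]
    exact ⟨Complex.ext (by simp) (by simp), rfl⟩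
  rw [← e0, h2, e1]

/-! ## the crossing ball -/

noncomputable def pX (a b : ℝ) : ℝ := 2 * a - 3 * a ^ 2 + a ^ 3 + 2 * b + 3 * b ^ 2 + b ^ 3
noncomputable def pY (a b : ℝ) : ℝ := 1 + 2 * a - a ^ 2 - 2 * b - b ^ 2
noncomputable def pZ (a b s : ℝ) : ℝ := -1 + 2 * s + a * (1 - s) + b * s

noncomputable def kT (q : E) : E :=
  (⟨pY (q.1.re / 32) (q.1.im / 32), pZ (q.1.re / 32) (q.1.im / 32) q.2⟩, pX (q.1.re / 32) (q.1.im / 32))

theorem re_smooth : ContDiff ℝ ∞ fun q : E => q.1.re / 32 := (Complex.reCLM.contDiff.comp contDiff_fst).div_const _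
theorem im_smooth : ContDiff ℝ ∞ fun q : E => q.1.im / 32 := (Complex.imCLM.contDiff.comp contDiff_fst).div_const _

theorem kT_smooth : ContDiff ℝ ∞ kT := by
  have h1 : ContDiff ℝ ∞ fun p : ℝ × ℝ => pX p.1 p.2 := by unfold pX; fun_prop
  have h2 : ContDiff ℝ ∞ fun p : ℝ × ℝ => pY p.1 p.2 := by unfold pY; fun_prop
  have h3 : ContDiff ℝ ∞ fun p : ℝ × ℝ × ℝ => pZ p.1 p.2.1 p.2.2 := by unfold pZ; fun_prop
  unfold kT
  refine (mk_smooth (h2.comp (re_smooth.prodMk im_smooth)) ?_).prodMk (h1.comp (re_smooth.prodMk im_smooth))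
  exact h3.comp (re_smooth.prodMk (im_smooth.prodMk contDiff_snd))

theorem psi_inj {a b a' b' : ℝ} (ha : |a| ≤ 1 / 8) (hb : |b| ≤ 1 / 8) (ha' : |a'| ≤ 1 / 8) (hb' : |b'| ≤ 1 / 8)
    (hX : pX a b = pX a' b') (hY : pY a b = pY a' b') : a = a' ∧ b = b' := by
  unfold pX at hX
  unfold pY at hY
  obtain ⟨ha1, ha2⟩ := abs_le.1 ha
  obtain ⟨hb1, hb2⟩ := abs_le.1 hb
  obtain ⟨ha3, ha4⟩ := abs_le.1 ha'
  obtain ⟨hb3, hb4⟩ := abs_le.1 hb'
  set A := 4 - 4 * (a + a') + (a ^ 2 + a * a' + a' ^ 2) with hA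
  set B := 2 * (b + b') + (b ^ 2 + b * b' + b' ^ 2) with hB
  set C := -2 * (a + a') + (a ^ 2 + a * a' + a' ^ 2) with hC
  set D := 4 + 4 * (b + b') + (b ^ 2 + b * b' + b' ^ 2) with hD
  have h1 : (a - a') * A + (b - b') * B = 0 := by rw [hA, hB]; linear_combination hX + hY
  have h2 : (a - a') * C + (b - b') * D = 0 := by rw [hC, hD]; linear_combination hX - hY
  have q1 : 0 ≤ a ^ 2 + a * a' + a' ^ 2 := by nlinarith [sq_nonneg (a + a'), sq_nonneg a, sq_nonneg a']
  have q2 : a ^ 2 + a * a' + a' ^ 2 ≤ 3 / 64 := by nlinarith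
  have q3 : 0 ≤ b ^ 2 + b * b' + b' ^ 2 := by nlinarith [sq_nonneg (b + b'), sq_nonneg b, sq_nonneg b']
  have q4 : b ^ 2 + b * b' + b' ^ 2 ≤ 3 / 64 := by nlinarith
  have hA1 : 3 ≤ A := by rw [hA]; linarith
  have hD1 : 3 ≤ D := by rw [hD]; linarith
  have hB1 : |B| ≤ 1 := abs_le.2 ⟨by rw [hB]; linarith, by rw [hB]; linarith⟩
  have hC1 : |C| ≤ 1 := abs_le.2 ⟨by rw [hC]; linarith, by rw [hC]; linarith⟩
  have hBC : B * C ≤ 1 := by
    have : |B * C| ≤ 1 * 1 := by rw [abs_mul]; exact mul_le_mul hB1 hC1 (abs_nonneg _) (by norm_num)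
    have := le_abs_self (B * C)
    linarith
  have hAD : 9 ≤ A * D := by nlinarith
  have hdet : A * D - B * C ≠ 0 := by
    intro h
    linarith
  constructor
  · have : (a - a') * (A * D - B * C) = 0 := by linear_combination D * h1 - B * h2
    rcases mul_eq_zero.1 this with h | h
    · linarith
    · exact absurd h hdet
  · have : (b - b') * (A * D - B * C) = 0 := by linear_combination A * h2 - C * h1
    rcases mul_eq_zero.1 this with h | h
    · linarith
    · exact absurd h hdet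

theorem TD_small {q : E} (hq : q ∈ TD) : |q.1.re / 32| < 1 / 32 ∧ |q.1.im / 32| < 1 / 32 := by
  have h1 := Complex.abs_re_le_norm q.1
  have h2 := Complex.abs_im_le_norm q.1
  have h3 := hq.1
  constructor
  · rw [abs_div, abs_of_pos (by norm_num : (0 : ℝ) < 32)]
    linarith
  · rw [abs_div, abs_of_pos (by norm_num : (0 : ℝ) < 32)]
    linarith

theorem kT_inj : InjOn kT TD := by
  intro q hq q' hq' he
  obtain ⟨a1, b1⟩ := TD_small hq
  obtain ⟨a2, b2⟩ := TD_small hq'
  have hX : pX (q.1.re / 32) (q.1.im / 32) = pX (q'.1.re / 32) (q'.1.im / 32) := congrArg Prod.snd he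
  have hY : pY (q.1.re / 32) (q.1.im / 32) = pY (q'.1.re / 32) (q'.1.im / 32) :=
    congrArg (fun q : E => q.1.re) he
  have hZ : pZ (q.1.re / 32) (q.1.im / 32) q.2 = pZ (q'.1.re / 32) (q'.1.im / 32) q'.2 :=
    congrArg (fun q : E => q.1.im) he
  obtain ⟨h1, h2⟩ := psi_inj (by linarith) (by linarith) (by linarith) (by linarith) hX hY
  rw [← h1, ← h2] at hZ
  have h3 : (q.2 - q'.2) * (2 - q.1.re / 32 + q.1.im / 32) = 0 := by
    unfold pZ at hZ
    linear_combination hZ
  have h4 := abs_lt.1 a1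
  have h5 := abs_lt.1 b1
  rcases mul_eq_zero.1 h3 with h | h
  · refine Prod.ext (Complex.ext ?_ ?_) (by linarith)
    · linarith
    · linarith
  · exfalso; linarith

theorem dir_deriv {f : E → E} {q : E} (hf : DifferentiableAt ℝ f q) (L : E →L[ℝ] ℝ) (v : E) {d : ℝ}
    (h : HasDerivAt (fun τ : ℝ => L (f (q + τ • v))) d 0) : L (fderiv ℝ f q v) = d := by
  have h1 : HasDerivAt (fun τ : ℝ => q + τ • v) v 0 := by
    have := ((hasDerivAt_id' (0 : ℝ)).smul_const v).const_add q
    simpa using this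
  have h2 : HasFDerivAt (fun x => L (f x)) (L.comp (fderiv ℝ f q)) (q + (0 : ℝ) • v) := by
    rw [zero_smul, add_zero]
    exact L.hasFDerivAt.comp q hf.hasFDerivAt
  have h3 := h2.comp_hasDerivAt (0 : ℝ) h1
  exact h3.unique h

theorem poly3 (c0 c1 c2 c3 : ℝ) : HasDerivAt (fun τ : ℝ => c0 + c1 * τ + c2 * τ ^ 2 + c3 * τ ^ 3) c1 0 := by
  have := (((hasDerivAt_const (0 : ℝ) c0).fun_add ((hasDerivAt_id' (0 : ℝ)).const_mul c1)).fun_add
    ((hasDerivAt_pow 2 (0 : ℝ)).const_mul c2)).fun_add ((hasDerivAt_pow 3 (0 : ℝ)).const_mul c3)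
  exact this.congr_deriv (by norm_num)

theorem kT_imm {q : E} (hq : q ∈ TD) {v : E} (hv : fderiv ℝ kT q v = 0) : v = 0 := by
  have hd : DifferentiableAt ℝ kT q := kT_smooth.differentiable (by simp) q
  obtain ⟨a1, b1⟩ := TD_small hq
  set a := q.1.re / 32 with ha
  set b := q.1.im / 32 with hb
  set α := v.1.re / 32 with hα
  set β := v.1.im / 32 with hβ
  have ea : ∀ τ : ℝ, (q + τ • v).1.re / 32 = a + τ * α := by
    intro τ
    simp only [Prod.fst_add, Prod.smul_fst, Complex.add_re, Complex.real_smul, Complex.re_ofReal_mul, ha, hα]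
    ring
  have eb : ∀ τ : ℝ, (q + τ • v).1.im / 32 = b + τ * β := by
    intro τ
    simp only [Prod.fst_add, Prod.smul_fst, Complex.add_im, Complex.real_smul, Complex.im_ofReal_mul, hb, hβ]
    ring
  have es : ∀ τ : ℝ, (q + τ • v).2 = q.2 + τ * v.2 := by
    intro τ
    simp
  have hX := dir_deriv hd (ContinuousLinearMap.snd ℝ ℂ ℝ) v
    (d := α * (2 - 6 * a + 3 * a ^ 2) + β * (2 + 6 * b + 3 * b ^ 2)) (by
      have h1 := poly3 (pX a b) (α * (2 - 6 * a + 3 * a ^ 2) + β * (2 + 6 * b + 3 * b ^ 2))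
        (-3 * α ^ 2 + 3 * a * α ^ 2 + 3 * β ^ 2 + 3 * b * β ^ 2) (α ^ 3 + β ^ 3)
      refine h1.congr_of_eventuallyEq (Eventually.of_forall fun τ => ?_)
      simp only [ContinuousLinearMap.coe_snd', kT, ea, eb, pX]
      ring)
  have hY := dir_deriv hd (Complex.reCLM.comp (ContinuousLinearMap.fst ℝ ℂ ℝ)) v
    (d := α * (2 - 2 * a) - β * (2 + 2 * b)) (by
      have h1 := poly3 (pY a b) (α * (2 - 2 * a) - β * (2 + 2 * b)) (-α ^ 2 - β ^ 2) 0
      refine h1.congr_of_eventuallyEq (Eventually.of_forall fun τ => ?_)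
      simp only [ContinuousLinearMap.comp_apply, ContinuousLinearMap.coe_fst', Complex.reCLM_apply, kT, ea, eb, pY]
      ring)
  have hZ := dir_deriv hd (Complex.imCLM.comp (ContinuousLinearMap.fst ℝ ℂ ℝ)) v
    (d := v.2 * (2 - a + b) + α * (1 - q.2) + β * q.2) (by
      have h1 := poly3 (pZ a b q.2) (v.2 * (2 - a + b) + α * (1 - q.2) + β * q.2) (-α * v.2 + β * v.2) 0
      refine h1.congr_of_eventuallyEq (Eventually.of_forall fun τ => ?_)
      simp only [ContinuousLinearMap.comp_apply, ContinuousLinearMap.coe_fst', Complex.imCLM_apply, kT, ea, eb, es, pZ]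
      ring)
  rw [hv, map_zero] at hX hY hZ
  have h4 := abs_lt.1 a1
  have h5 := abs_lt.1 b1
  have p1 : 0 < 2 - 6 * a + 3 * a ^ 2 := by nlinarith [sq_nonneg a]
  have p2 : 0 < 2 + 6 * b + 3 * b ^ 2 := by nlinarith [sq_nonneg b]
  have p3 : 0 < 2 - 2 * a := by linarith
  have p4 : 0 < 2 + 2 * b := by linarith
  have hdet : 0 < (2 - 6 * a + 3 * a ^ 2) * (2 + 2 * b) + (2 + 6 * b + 3 * b ^ 2) * (2 - 2 * a) := by positivity
  have e1 : α * ((2 - 6 * a + 3 * a ^ 2) * (2 + 2 * b) + (2 + 6 * b + 3 * b ^ 2) * (2 - 2 * a)) = 0 := by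
    linear_combination -(2 + 2 * b) * hX - (2 + 6 * b + 3 * b ^ 2) * hY
  have e2 : β * ((2 - 6 * a + 3 * a ^ 2) * (2 + 2 * b) + (2 + 6 * b + 3 * b ^ 2) * (2 - 2 * a)) = 0 := by
    linear_combination -(2 - 2 * a) * hX + (2 - 6 * a + 3 * a ^ 2) * hY
  have f1 : α = 0 := (mul_eq_zero.1 e1).resolve_right hdet.ne'
  have f2 : β = 0 := (mul_eq_zero.1 e2).resolve_right hdet.ne'
  rw [f1, f2] at hZ
  have f3 : v.2 = 0 := by
    have h6 : v.2 * (2 - a + b) = 0 := by linarith
    exact (mul_eq_zero.1 h6).resolve_right (by intro h; linarith)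
  refine Prod.ext (Complex.ext ?_ ?_) f3
  · have : v.1.re = 32 * α := by rw [hα]; ring
    rw [this, f1]; simp
  · have : v.1.im = 32 * β := by rw [hβ]; ring
    rw [this, f2]; simp

theorem kx_inj {g : ℝ → ℝ} (hg : ∀ t, t ^ 2 ≤ 2 → g t = t) {t t' : ℝ} (he : kc g t = kc g t') : t = t' := by
  have hx : kx t = kx t' := congrArg Prod.snd he
  have hz : g t = g t' := congrArg (fun q : E => q.1.im) he
  have habs : ∀ u : ℝ, |u| ^ 2 = u ^ 2 := fun u => sq_abs u
  rcases le_or_gt (t ^ 2) 2 with h1 | h1 <;> rcases le_or_gt (t' ^ 2) 2 with h2 | h2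
  · rw [hg t h1, hg t' h2] at hz; exact hz
  · exfalso
    rw [kx_out (by linarith : 19 / 10 ≤ t' ^ 2)] at hx
    have h3 := kx_abs t
    rw [hx] at h3
    have h4 : |t'| ^ 2 ≤ |t| ^ 2 := pow_le_pow_left₀ (abs_nonneg _) h3 2
    rw [habs, habs] at h4
    linarith
  · exfalso
    rw [kx_out (by linarith : 19 / 10 ≤ t ^ 2)] at hx
    have h3 := kx_abs t'
    rw [← hx] at h3
    have h4 : |t| ^ 2 ≤ |t'| ^ 2 := pow_le_pow_left₀ (abs_nonneg _) h3 2
    rw [habs, habs] at h4
    linarith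
  · rw [kx_out (by linarith : 19 / 10 ≤ t ^ 2), kx_out (by linarith : 19 / 10 ≤ t' ^ 2)] at hx
    exact hx

theorem kc_inj {t t' : ℝ} (he : kc kz t = kc kz t') : t = t' := kx_inj (fun t h => kz_in h) he

/-- the foot strand, with a finger -/
theorem kT_foot {u s : ℝ} (hu : |u| < 1) : kT ((u : ℂ), s) =
    (⟨ky (-1 + u / 32), -1 + u / 32 + s * (2 - u / 32)⟩, kx (-1 + u / 32)) := by
  have h1 := abs_lt.1 hu
  have h2 : (-1 + u / 32) ^ 2 ≤ 6 / 5 := by nlinarith
  unfold kT
  rw [kx_in h2, ky_in (by linarith)]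
  simp only [Complex.ofReal_re, Complex.ofReal_im, pX, pY, pZ, Prod.mk.injEq]
  exact ⟨Complex.ext (by simp; ring) (by simp; ring), by ring⟩

theorem kT_tip {q : E} (hq : q ∈ TD) (h1 : q.2 = 1) (h0 : q.1.re = 0) : kT q = kc kz (1 + q.1.im / 32) := by
  have h3 := abs_lt.1 (TD_small hq).2
  have h2 : (1 + q.1.im / 32) ^ 2 ≤ 6 / 5 := by nlinarith
  unfold kT kc
  rw [kx_in h2, ky_in (by linarith), kz_in (by linarith), h0, h1]
  simp only [pX, pY, pZ, Prod.mk.injEq]
  exact ⟨Complex.ext (by simp; ring) (by simp; norm_num), by ring⟩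

theorem kT_foot' {q : E} (hq : q ∈ TD) (h1 : q.2 = 0) (h0 : q.1.im = 0) : kT q = kc kz (-1 + q.1.re / 32) := by
  have e : q = ((q.1.re : ℂ), (0 : ℝ)) := Prod.ext (Complex.ext (by simp) (by simp [h0])) h1
  have h3 := TD_small hq
  have h4 : |q.1.re| < 1 := by
    have := h3.1
    rw [abs_div, abs_of_pos (by norm_num : (0 : ℝ) < 32)] at this
    linarith
  have h5 := abs_lt.1 h4
  have h2 : (-1 + q.1.re / 32) ^ 2 ≤ 6 / 5 := by nlinarith
  conv_lhs => rw [e]
  rw [kT_foot h4]
  unfold kc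
  rw [kz_in (by linarith), zero_mul, add_zero]

theorem kT_hit {q : E} (hq : q ∈ TD) : (∃ t, kT q = kc kz t) ↔ q ∈ TS := by
  constructor
  · rintro ⟨t, ht⟩
    obtain ⟨a1, b1⟩ := TD_small hq
    set a := q.1.re / 32 with ha
    set b := q.1.im / 32 with hb
    have hX : pX a b = kx t := congrArg Prod.snd ht
    have hY : pY a b = ky t := congrArg (fun q : E => q.1.re) ht
    have hZ : pZ a b q.2 = kz t := congrArg (fun q : E => q.1.im) ht
    have h4 := abs_lt.1 a1
    have h5 := abs_lt.1 b1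
    have a2 : a ^ 2 ≤ 1 / 1024 := by nlinarith
    have b2 : b ^ 2 ≤ 1 / 1024 := by nlinarith
    have a3 : |a ^ 3| ≤ 1 / 1024 := by
      rw [abs_pow, pow_succ, sq_abs]
      have := mul_le_mul a2 (by linarith : |a| ≤ 1) (abs_nonneg _) (by norm_num)
      linarith
    have b3 : |b ^ 3| ≤ 1 / 1024 := by
      rw [abs_pow, pow_succ, sq_abs]
      have := mul_le_mul b2 (by linarith : |b| ≤ 1) (abs_nonneg _) (by norm_num)
      linarith
    have a4 := abs_le.1 a3
    have b4 := abs_le.1 b3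
    have a5 := sq_nonneg a
    have b5 := sq_nonneg b
    have hXb : |kx t| < 1 / 5 := by
      rw [← hX]
      unfold pX
      exact abs_lt.2 ⟨by linarith, by linarith⟩
    have hYb : |ky t - 1| < 1 / 6 := by
      rw [← hY]
      unfold pY
      exact abs_lt.2 ⟨by linarith, by linarith⟩
    have ht2 : t ^ 2 < 19 / 10 := by
      by_contra hc
      have hc := not_lt.1 hc
      rw [kx_out hc] at hXb
      have h6 := abs_lt.1 hXb
      nlinarith
    rw [ky_in (by linarith)] at hY hYb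
    have h7 := abs_lt.1 hYb
    have ht3 : t ^ 2 ≤ 6 / 5 := by linarith
    rw [kx_in ht3] at hX
    rw [kz_in (by linarith)] at hZ
    have ht4 : t ≤ 9 / 8 ∧ -(9 / 8) ≤ t := ⟨by nlinarith, by nlinarith⟩
    rcases le_or_gt 0 t with h0 | h0
    · have h8 : 7 / 8 ≤ t := by nlinarith
      obtain ⟨e1, e2⟩ := psi_inj (a := a) (b := b) (a' := 0) (b' := t - 1) (by linarith) (by linarith) (by norm_num)
        (abs_le.2 ⟨by linarith, by linarith⟩) (by rw [hX]; unfold pX; ring) (by rw [hY]; unfold pY; ring)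
      have e3 : q.2 = 1 := by
        have h9 : (q.2 - 1) * (2 + b) = 0 := by
          unfold pZ at hZ
          rw [e1] at hZ
          linear_combination hZ - e2
        rcases mul_eq_zero.1 h9 with h | h
        · linarith
        · exfalso; linarith
      refine ⟨hq, Or.inr ⟨e3, ?_⟩⟩
      rw [ha] at e1
      linarith
    · have h8 : t ≤ -(7 / 8) := by nlinarith
      obtain ⟨e1, e2⟩ := psi_inj (a := a) (b := b) (a' := t + 1) (b' := 0) (by linarith) (by linarith)
        (abs_le.2 ⟨by linarith, by linarith⟩) (by norm_num) (by rw [hX]; unfold pX; ring) (by rw [hY]; unfold pY; ring)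
      have e3 : q.2 = 0 := by
        have h9 : q.2 * (2 - a) = 0 := by
          unfold pZ at hZ
          rw [e2] at hZ
          linear_combination hZ - e1
        rcases mul_eq_zero.1 h9 with h | h
        · exact h
        · exfalso; linarith
      refine ⟨hq, Or.inl ⟨e3, ?_⟩⟩
      rw [hb] at e2
      linarith
  · rintro ⟨-, ⟨h1, h2⟩ | ⟨h1, h2⟩⟩
    · exact ⟨_, kT_foot' hq h1 h2⟩
    · exact ⟨_, kT_tip hq h1 h2⟩

/-- the curve in the box -/
def KC (g : ℝ → ℝ) : Set E := kc g '' {t | |t| < 8}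

theorem foot_mem {u s : ℝ} (hu : |u| < 1) (h1 : -(1 / 4) < s) (h2 : s < 5 / 4) : ((u : ℂ), s) ∈ TD := by
  refine ⟨?_, h1, h2⟩
  simpa using hu

theorem KC_fing : (KC kz \ kT '' TD) ∪ kT '' TF = KC kw := by
  have hb0 := KNT.bmp_nonneg
  have hb1 := KNT.bmp_le_one
  -- the finger
  have hfin : ∀ t : ℝ, |32 * (t + 1)| < 1 →
      kc kw t = kT (((32 * (t + 1) : ℝ) : ℂ), 9 / 8 * bmp (32 * (t + 1))) := by
    intro t ht
    have h1 := abs_lt.1 ht
    rw [kT_foot ht]
    have e1 : -1 + 32 * (t + 1) / 32 = t := by ring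
    rw [e1]
    unfold kc kw
    rw [kz_in (by nlinarith), Prod.mk.injEq]
    exact ⟨Complex.ext rfl (by simp only; ring), rfl⟩
  have hz0 : ∀ t : ℝ, |32 * (t + 1)| < 1 → kc kz t = kT (((32 * (t + 1) : ℝ) : ℂ), 0) := by
    intro t ht
    have h1 := abs_lt.1 ht
    rw [kT_foot ht]
    have e1 : -1 + 32 * (t + 1) / 32 = t := by ring
    rw [e1]
    unfold kc
    rw [kz_in (by nlinarith), Prod.mk.injEq]
    exact ⟨Complex.ext rfl (by simp only; ring), rfl⟩
  have hout : ∀ t : ℝ, 1 ≤ |32 * (t + 1)| → kc kw t = kc kz t := by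
    intro t ht
    rw [abs_mul, abs_of_pos (by norm_num : (0 : ℝ) < 32)] at ht
    unfold kc
    rw [kw_out (by linarith)]
  ext y
  constructor
  · rintro (⟨⟨t, ht, rfl⟩, hy⟩ | ⟨q, ⟨hq, h | h⟩, rfl⟩)
    · rcases lt_or_ge |32 * (t + 1)| 1 with h | h
      · exfalso
        apply hy
        rw [hz0 t h]
        exact ⟨_, foot_mem h (by norm_num) (by norm_num), rfl⟩
      · exact ⟨t, ht, hout t h⟩
    · have h3 := TD_small hq
      have h4 : |q.1.re| < 1 := by
        have := h3.1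
        rw [abs_div, abs_of_pos (by norm_num : (0 : ℝ) < 32)] at this
        linarith
      have h5 := abs_lt.1 h4
      have e2 : 32 * (-1 + q.1.re / 32 + 1) = q.1.re := by ring
      refine ⟨-1 + q.1.re / 32, ?_, ?_⟩
      · show |-1 + q.1.re / 32| < 8
        exact abs_lt.2 ⟨by linarith, by linarith⟩
      rw [hfin _ (by rw [e2]; exact h4), e2]
      congr 1
      refine Prod.ext (Complex.ext (by simp) (by simp [h.1])) ?_
      exact h.2.symm
    · have h3 := abs_lt.1 (TD_small hq).2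
      refine ⟨1 + q.1.im / 32, ?_, ?_⟩
      · show |1 + q.1.im / 32| < 8
        exact abs_lt.2 ⟨by linarith, by linarith⟩
      rw [hout _ (by
        rw [abs_of_nonneg (by linarith)]
        linarith), kT_tip hq h.1 h.2]
  · rintro ⟨t, ht, rfl⟩
    rcases lt_or_ge |32 * (t + 1)| 1 with h | h
    · right
      rw [hfin t h]
      refine ⟨_, ⟨foot_mem h ?_ ?_, Or.inl ⟨by simp, by simp⟩⟩, rfl⟩
      · have := hb0 (32 * (t + 1)); linarith
      · have := hb1 (32 * (t + 1)); linarith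
    · rw [hout t h]
      by_cases hy : kc kz t ∈ kT '' TD
      · right
        obtain ⟨q, hq, he⟩ := hy
        obtain ⟨-, h1 | h1⟩ := (kT_hit hq).1 ⟨t, he⟩
        · exfalso
          rw [kT_foot' hq h1.1 h1.2] at he
          have h2 := kc_inj he
          have h3 : 32 * (t + 1) = q.1.re := by rw [← h2]; ring
          rw [h3] at h
          have h4 := (TD_small hq).1
          rw [abs_div, abs_of_pos (by norm_num : (0 : ℝ) < 32)] at h4
          linarith
        · exact ⟨q, ⟨hq, Or.inr h1⟩, he⟩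
      · left
        exact ⟨⟨t, ht, rfl⟩, hy⟩

theorem BL_eq : BL = (fun t : ℝ => ((0 : ℂ), t)) '' {t | |t| < 8} := by
  ext q
  constructor
  · rintro ⟨⟨-, h1⟩, h2⟩
    exact ⟨q.2, h1, Prod.ext h2.symm rfl⟩
  · rintro ⟨t, ht, rfl⟩
    exact ⟨⟨by simp, ht⟩, rfl⟩

theorem img_BL {V : Equiv.Perm E} {g : ℝ → ℝ} (h : ∀ t : ℝ, V (0, t) = kc g t) : V '' BL = KC g := by
  rw [BL_eq, image_image]
  unfold KC
  exact image_congr fun t _ => h t

theorem img_KC {V : Equiv.Perm E} {g g' : ℝ → ℝ} (h : ∀ t : ℝ, V (kc g t) = kc g' t) : V '' KC g = KC g' := by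
  unfold KC
  rw [image_image]
  exact image_congr fun t _ => h t

theorem kT_BB {q : E} (hq : q ∈ TD) : kT q ∈ BB := by
  obtain ⟨a1, b1⟩ := TD_small hq
  obtain ⟨-, s1, s2⟩ := hq
  set a := q.1.re / 32 with ha
  set b := q.1.im / 32 with hb
  have h4 := abs_lt.1 a1
  have h5 := abs_lt.1 b1
  have a2 : a ^ 2 ≤ 1 / 1024 := by nlinarith
  have b2 : b ^ 2 ≤ 1 / 1024 := by nlinarith
  have a3 : |a ^ 3| ≤ 1 / 1024 := by
    rw [abs_pow, pow_succ, sq_abs]
    have := mul_le_mul a2 (by linarith : |a| ≤ 1) (abs_nonneg _) (by norm_num)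
    linarith
  have b3 : |b ^ 3| ≤ 1 / 1024 := by
    rw [abs_pow, pow_succ, sq_abs]
    have := mul_le_mul b2 (by linarith : |b| ≤ 1) (abs_nonneg _) (by norm_num)
    linarith
  have a4 := abs_le.1 a3
  have b4 := abs_le.1 b3
  have a5 := sq_nonneg a
  have b5 := sq_nonneg b
  constructor
  · refine lt_of_le_of_lt (norm_mk_le _ _) ?_
    have e1 : |pY a b| ≤ 2 := by
      unfold pY
      exact abs_le.2 ⟨by linarith, by linarith⟩
    have e2 : |pZ a b q.2| ≤ 3 := by
      unfold pZ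
      exact abs_le.2 ⟨by nlinarith, by nlinarith⟩
    linarith
  · show |pX a b| < 8
    unfold pX
    exact abs_lt.2 ⟨by linarith, by linarith⟩

theorem kink_model : ∃ T₀ : E → E, (∀ q ∈ TD, ContDiffAt ℝ ∞ T₀ q) ∧ (∀ q ∈ TD, Function.Bijective (fderiv ℝ T₀ q)) ∧
    InjOn T₀ TD ∧ (∀ q ∈ TD, T₀ q ∈ BB) ∧ (∀ q ∈ TD, (T₀ q).1 = 0 ↔ q ∈ TS) ∧ T₀ (0, 0) = (0, -1) ∧
    T₀ (0, 1) = (0, 1) ∧ LEqO BB BL ((BL \ T₀ '' TD) ∪ T₀ '' TF) := by
  obtain ⟨V, hV, hV1'⟩ := line_push (σ := 1) one_ne_zero (by norm_num)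
  obtain ⟨V', hV', hV'1⟩ := line_push (σ := -1) (by norm_num) (by norm_num)
  obtain ⟨W, hW, hW1⟩ := fing_push
  have hV1 : ∀ t : ℝ, V 1 (0, t) = kc kz t := by
    intro t
    rw [hV1' t]
    unfold kc
    simp
  have hsm : ContDiff ℝ ∞ fun q : E => (V 1).symm q := hV.smooth_symm.comp (contDiff_const.prodMk contDiff_id)
  have hsm1 : ContDiff ℝ ∞ fun q : E => V 1 q := hV.smooth.comp (contDiff_const.prodMk contDiff_id)
  let T₀ : E → E := fun q => (V 1).symm (kT q)
  have hT₀ : ContDiff ℝ ∞ T₀ := hsm.comp kT_smooth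
  have hVT : ∀ q, V 1 (T₀ q) = kT q := fun q => (V 1).apply_symm_apply _
  refine ⟨T₀, fun q _ => hT₀.contDiffAt, ?_, ?_, ?_, ?_, ?_, ?_, ?_⟩
  · intro q hq
    have hi : Function.Injective (fderiv ℝ T₀ q) := by
      rw [injective_iff_map_eq_zero]
      intro v hv
      apply kT_imm hq
      have h1 : HasFDerivAt kT ((fderiv ℝ (fun q : E => V 1 q) (T₀ q)).comp (fderiv ℝ T₀ q)) q := by
        have h2 : HasFDerivAt (fun q => V 1 (T₀ q)) _ q :=
          HasFDerivAt.comp (g := fun q : E => V 1 q) q (hsm1.differentiable (by simp) (T₀ q)).hasFDerivAt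
            (hT₀.differentiable (by simp) q).hasFDerivAt
        have h3 : (fun q => V 1 (T₀ q)) = kT := funext hVT
        rw [h3] at h2
        exact h2
      rw [h1.fderiv, ContinuousLinearMap.comp_apply, hv, map_zero]
    refine ⟨hi, ?_⟩
    exact (LinearMap.injective_iff_surjective (f := (fderiv ℝ T₀ q : E →ₗ[ℝ] E))).1 hi
  · intro q hq q' hq' he
    exact kT_inj hq hq' ((V 1).symm.injective he)
  · intro q hq
    exact hV.inv.mem 1 (kT_BB hq)
  · intro q hq
    rw [← kT_hit hq]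
    constructor
    · intro h
      refine ⟨(T₀ q).2, ?_⟩
      rw [← hVT q, ← hV1]
      congr 1
      exact Prod.ext h rfl
    · rintro ⟨t, ht⟩
      have : T₀ q = (0, t) := by
        show (V 1).symm (kT q) = (0, t)
        rw [ht, ← hV1, Equiv.symm_apply_apply]
      rw [this]
  · show (V 1).symm (kT (0, 0)) = (0, -1)
    rw [Equiv.symm_apply_eq, hV1]
    have := kT_foot' (q := (0, 0)) ⟨by simp, by norm_num, by norm_num⟩ rfl rfl
    simpa using this
  · show (V 1).symm (kT (0, 1)) = (0, 1)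
    rw [Equiv.symm_apply_eq, hV1]
    have := kT_tip (q := (0, 1)) ⟨by simp, by norm_num, by norm_num⟩ rfl rfl
    simpa using this
  · have e1 : LEqO BB BL (KC fun t => -1 * kz t) := by
      have := LEqO.diff BL hV'
      rwa [img_BL hV'1] at this
    have e2 : LEqO BB (KC kw) (KC fun t => -1 * kz t) := by
      have := LEqO.diff (KC kw) hW
      rwa [img_KC hW1] at this
    have e3 : LEqO BB (KC kw) ((V 1).symm '' KC kw) := LEqO.diff (KC kw) hV.inv
    have e4 : (V 1).symm '' KC kw = (BL \ T₀ '' TD) ∪ T₀ '' TF := by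
      rw [← KC_fing, image_union, image_diff (V 1).symm.injective, image_image, image_image]
      have : (V 1).symm '' KC kz = BL := by
        rw [← img_BL hV1, image_image]
        simp
      rw [this]
    rw [← e4]
    exact (e1.trans e2.symm).trans e3

end Pool.Agent.NHL
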